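import Pool.Agent.Results.MP_ae071c_lc.NoMinimalDegree
import Pool.Agent.Y801.HD.Pair

set_option autoImplicit false

/-!
Below every degree strictly above `1` there are two incomparable degrees strictly above `1`, neither
of which is above any one of finitely many given degrees strictly above `1`. In particular there is
no minimal degree.
-/

namespace Pool.Agent.Results.MP_ae071c_lc.ConeAvoidingPairs

open Pool.Agent.Helper750.Eff Pool.Agent.Helper750.Basis Pool.Agent.Helper750.KL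
  Pool.Agent.Helper750.Sig Pool.Agent.H691R2.Pair Pool.Agent.Y801.HD
  Pool.Agent.Results.MP_ae071c_lc.NoMinimalDegree

section

variable {E F : (ℕ → ℕ) → (ℕ → ℕ) → Prop} {Y : (ℕ → ℕ) → Prop}

/-- The reals whose even part is not `E`-related to the zero real and whose odd part is in `Y`. -/
def AA (E : (ℕ → ℕ) → (ℕ → ℕ) → Prop) (Y : (ℕ → ℕ) → Prop) (p : ℕ → ℕ) : Prop :=
  ¬ E (evn p) O ∧ Y (odd p)

/-- `E` on the even parts of the members of `AA E Y`, and one class for all other reals. -/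
def GG (E : (ℕ → ℕ) → (ℕ → ℕ) → Prop) (Y : (ℕ → ℕ) → Prop) (p q : ℕ → ℕ) : Prop :=
  (AA E Y p ∧ AA E Y q ∧ E (evn p) (evn q)) ∨ (¬ AA E Y p ∧ ¬ AA E Y q)

theorem evn_O : evn O = O := by
  funext n
  rfl

theorem D11_AA (hE : IsHypEquiv E) (hY : Cl Y) : D11 (AA E Y) := by
  have hD : D11 (fun p : (ℕ → ℕ) × (ℕ → ℕ) => E p.1 p.2) := isHyp_iff.mp hE.2
  have h1 : D11 (fun x : ℕ → ℕ => ¬ E x O) :=
    (hD.comp (F := fun x : ℕ → ℕ => (x, O)) (GF.pair GF.id GF.zero)).not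
  exact (h1.comp (GF.evn GF.id)).and ((D11.cl hY).comp (GF.odd GF.id))

theorem not_AA_O (hE : IsHypEquiv E) : ¬ AA E Y O := fun h => h.1 (by rw [evn_O]; exact hE.1.refl O)

theorem hyp_GG (hE : IsHypEquiv E) (hY : Cl Y) : IsHypEquiv (GG E Y) := by
  have hD : D11 (fun p : (ℕ → ℕ) × (ℕ → ℕ) => E p.1 p.2) := isHyp_iff.mp hE.2
  have hEq := hE.1
  have hAD := D11_AA hE hY
  refine ⟨⟨fun p => ?_, fun {p q} h => ?_, fun {p q r} h h' => ?_⟩, isHyp_iff.mpr ?_⟩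
  · by_cases hp : AA E Y p
    · exact Or.inl ⟨hp, hp, hEq.refl _⟩
    · exact Or.inr ⟨hp, hp⟩
  · rcases h with ⟨h1, h2, h3⟩ | ⟨h1, h2⟩
    · exact Or.inl ⟨h2, h1, hEq.symm h3⟩
    · exact Or.inr ⟨h2, h1⟩
  · rcases h with ⟨h1, h2, h3⟩ | ⟨h1, h2⟩ <;> rcases h' with ⟨k1, k2, k3⟩ | ⟨k1, k2⟩
    · exact Or.inl ⟨h1, k2, hEq.trans h3 k3⟩
    · exact absurd h2 k1
    · exact absurd k1 h2
    · exact Or.inr ⟨h1, k2⟩
  · have hA1 : D11 (fun r : (ℕ → ℕ) × (ℕ → ℕ) => AA E Y r.1) := hAD.comp GF.fst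
    have hA2 : D11 (fun r : (ℕ → ℕ) × (ℕ → ℕ) => AA E Y r.2) := hAD.comp GF.snd
    have hE' : D11 (fun r : (ℕ → ℕ) × (ℕ → ℕ) => E (evn r.1) (evn r.2)) :=
      hD.comp (F := fun r : (ℕ → ℕ) × (ℕ → ℕ) => (evn r.1, evn r.2))
        (GF.pair (GF.evn GF.fst) (GF.evn GF.snd))
    exact (hA1.and (hA2.and hE')).or (hA1.not.and hA2.not)

theorem ne_of_above (hE : IsHypEquiv E) (h1 : StrictlyBelow oneClass E) : ∃ x, ¬ E x O := by
  by_contra hcon
  push Not at hcon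
  apply h1.2
  refine ⟨fun x => x, isHypFun_gf GF.id, fun x y => ?_⟩
  simp only [oneClass, iff_true]
  exact hE.1.trans (hcon x) (hE.1.symm (hcon y))

theorem one_below_GG (hE : IsHypEquiv E) (hY : Cl Y) (hne : ∃ x, ¬ E x O) (hYne : ∃ y, Y y) :
    StrictlyBelow oneClass (GG E Y) := by
  obtain ⟨x0, hx0⟩ := hne
  obtain ⟨y0, hy0⟩ := hYne
  have hAm : AA E Y (join x0 y0) := ⟨by rw [evn_join]; exact hx0, by rw [odd_join]; exact hy0⟩
  refine ⟨⟨fun _ => O, isHypFun_gf GF.zero, fun x y => ?_⟩, ?_⟩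
  · simp only [oneClass, true_iff]
    exact (hyp_GG hE hY).1.refl _
  · rintro ⟨f, _, hf⟩
    have h2 : GG E Y (join x0 y0) O := (hf _ _).mpr trivial
    rcases h2 with ⟨_, h3, _⟩ | ⟨h3, _⟩
    · exact not_AA_O hE h3
    · exact h3 hAm

theorem GG_le (hE : IsHypEquiv E) (hY : Cl Y) : HypRed (GG E Y) E := by
  classical
  have hAD := D11_AA hE hY
  have hEq := hE.1
  let g : (ℕ → ℕ) → (ℕ → ℕ) := fun p => if AA E Y p then evn p else O
  have hg : S11 (fun r : (ℕ → ℕ) × (ℕ → ℕ) => g r.1 = r.2) := by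
    have h2 : S11 (fun r : (ℕ → ℕ) × (ℕ → ℕ) =>
        (AA E Y r.1 ∧ evn r.1 = r.2) ∨ (¬ AA E Y r.1 ∧ O = r.2)) :=
      ((hAD.comp GF.fst).1.and (S11.cl (Cl_eq (GF.evn GF.fst) GF.snd))).or
        ((hAD.comp GF.fst).2.and (S11.cl (Cl_eq GF.zero GF.snd)))
    refine h2.of_iff fun r => ?_
    by_cases hr : AA E Y r.1
    · simp [g, hr]
    · simp [g, hr]
  refine ⟨g, isHypFun_of hg, fun p q => ?_⟩
  by_cases hp : AA E Y p <;> by_cases hq : AA E Y q
  · simp [GG, g, hp, hq]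
  · simp only [GG, g, hp, hq, if_true, if_false, false_and, and_false, or_false, false_iff,
      not_false_eq_true, not_true_eq_false]
    exact hp.1
  · simp only [GG, g, hp, hq, if_true, if_false, false_and, and_false, or_false, false_iff,
      not_false_eq_true, not_true_eq_false, true_and]
    exact fun h => hq.1 (hEq.symm h)
  · simp only [GG, g, hp, hq, if_false, false_and, false_or, not_false_eq_true, and_self,
      true_iff]
    exact hEq.refl _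

/-- precomposition of a Hyp function with a computable function -/
theorem graph_precomp {f h : (ℕ → ℕ) → (ℕ → ℕ)}
    (hf : S11 (fun p : (ℕ → ℕ) × (ℕ → ℕ) => f p.1 = p.2)) (hh : GF h) :
    S11 (fun p : (ℕ → ℕ) × (ℕ → ℕ) => (fun x => f (h x)) p.1 = p.2) :=
  hf.comp (F := fun p : (ℕ → ℕ) × (ℕ → ℕ) => (h p.1, p.2)) (GF.pair (hh.comp GF.fst) GF.snd)

/-- If no Hyp function maps the complement of the `F`-class of the zero real into `Y`, then `F` is
not reducible to `GG E Y`. -/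
theorem not_le_GG (h : ∀ f : (ℕ → ℕ) → (ℕ → ℕ),
      S11 (fun p : (ℕ → ℕ) × (ℕ → ℕ) => f p.1 = p.2) → ∃ x, ¬ F x O ∧ ¬ Y (f x)) :
    ¬ HypRed F (GG E Y) := by
  rintro ⟨f, hf, hred⟩
  have hfs := s11_graph hf
  by_cases hO : AA E Y (f O)
  · have hc : S11 (fun p : (ℕ → ℕ) × (ℕ → ℕ) => (fun _ : ℕ → ℕ => odd (f O)) p.1 = p.2) := by
      have h2 : S11 (fun q : ((ℕ → ℕ) × (ℕ → ℕ)) × (ℕ → ℕ) => f O = q.2 ∧ odd q.2 = q.1.2) :=
        (hfs.comp (F := fun q : ((ℕ → ℕ) × (ℕ → ℕ)) × (ℕ → ℕ) => (O, q.2))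
          (GF.pair GF.zero GF.snd)).and
          (S11.cl (Cl_eq (GF.odd GF.snd) (GF.snd.comp GF.fst)))
      refine (S11.exR h2).of_iff fun p => ?_
      constructor
      · intro h
        exact ⟨_, rfl, h⟩
      · rintro ⟨y, e, h⟩
        simp only at e h ⊢
        rw [e]
        exact h
    obtain ⟨x, _, hx⟩ := h (fun _ => odd (f O)) hc
    exact hx hO.2
  · have hc : S11 (fun p : (ℕ → ℕ) × (ℕ → ℕ) => (fun x : ℕ → ℕ => odd (f x)) p.1 = p.2) := by
      have h2 : S11 (fun q : ((ℕ → ℕ) × (ℕ → ℕ)) × (ℕ → ℕ) =>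
          f q.1.1 = q.2 ∧ odd q.2 = q.1.2) :=
        (hfs.comp (F := fun q : ((ℕ → ℕ) × (ℕ → ℕ)) × (ℕ → ℕ) => (q.1.1, q.2))
          (GF.pair (GF.fst.comp GF.fst) GF.snd)).and
          (S11.cl (Cl_eq (GF.odd GF.snd) (GF.snd.comp GF.fst)))
      refine (S11.exR h2).of_iff fun p => ?_
      constructor
      · intro h
        exact ⟨_, rfl, h⟩
      · rintro ⟨y, e, h⟩
        simp only at e h ⊢
        rw [e]
        exact h
    obtain ⟨x, hXx, hx⟩ := h (fun x => odd (f x)) hc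
    apply hx
    have h3 : ¬ GG E Y (f x) (f O) := fun h => hXx ((hred _ _).mpr h)
    by_contra h4
    apply h3
    exact Or.inr ⟨fun h5 => h4 h5.2, hO⟩

theorem not_GG_O_iff (hE : IsHypEquiv E) (x : ℕ → ℕ) : ¬ GG E Y x O ↔ AA E Y x := by
  constructor
  · intro h
    by_contra hx
    exact h (Or.inr ⟨hx, not_AA_O hE⟩)
  · rintro h (⟨_, h2, _⟩ | ⟨h2, _⟩)
    · exact not_AA_O hE h2
    · exact h2 h

end

/-- Below every degree of Hyp equivalence relations on the reals strictly above `1` there are two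
incomparable degrees strictly above `1`, and they can be chosen so that neither is above any one of
finitely many given degrees strictly above `1`. In particular there is no minimal degree. -/
theorem result :
    (¬ ∃ E, IsMinimal E) ∧
    ∀ E : (ℕ → ℕ) → (ℕ → ℕ) → Prop, IsHypEquiv E → StrictlyBelow oneClass E →
      ∀ (n : ℕ) (F : Fin n → (ℕ → ℕ) → (ℕ → ℕ) → Prop),
        (∀ i, IsHypEquiv (F i) ∧ StrictlyBelow oneClass (F i)) →
        ∃ G G' : (ℕ → ℕ) → (ℕ → ℕ) → Prop,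
          (IsHypEquiv G ∧ StrictlyBelow oneClass G ∧ StrictlyBelow G E) ∧
          (IsHypEquiv G' ∧ StrictlyBelow oneClass G' ∧ StrictlyBelow G' E) ∧
          ¬ HypRed G G' ∧ ¬ HypRed G' G ∧
          ∀ i, ¬ HypRed (F i) G ∧ ¬ HypRed (F i) G' := by
  refine ⟨NoMinimalDegree.result, fun E hE h1 n F hF => ?_⟩
  have hXne := ne_of_above hE h1
  have hD : ∀ {H : (ℕ → ℕ) → (ℕ → ℕ) → Prop}, IsHypEquiv H → D11 (fun x : ℕ → ℕ => ¬ H x O) := by
    intro H hH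
    have hD : D11 (fun p : (ℕ → ℕ) × (ℕ → ℕ) => H p.1 p.2) := isHyp_iff.mp hH.2
    exact (hD.comp (F := fun x : ℕ → ℕ => (x, O)) (GF.pair GF.id GF.zero)).not
  obtain ⟨P, hP, ⟨w, hw⟩, hπ⟩ := exists_prod n (fun i x => ¬ F i x O) (fun i => (hD (hF i).1).1)
    (fun i => ne_of_above (hF i).1 (hF i).2)
  obtain ⟨x0, hx0⟩ := hXne
  have hX : S11 (fun u : ℕ → ℕ => ¬ E (evn u) O ∧ P (odd u)) :=
    ((hD hE).1.comp (GF.evn GF.id)).and (hP.comp (GF.odd GF.id))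
  obtain ⟨A, B, hA, hB, hAne, hBne, hAB, hBA⟩ := exists_pair_rel hX
    ⟨join x0 w, by rw [evn_join]; exact hx0, by rw [odd_join]; exact hw⟩
  -- the facts for one of the two sets
  have key : ∀ Y Z : (ℕ → ℕ) → Prop, Cl Y → Cl Z → (∃ x, Y x) →
      (∀ f : (ℕ → ℕ) → (ℕ → ℕ), S11 (fun p : (ℕ → ℕ) × (ℕ → ℕ) => f p.1 = p.2) →
        ∃ x, ((¬ E (evn (evn x)) O ∧ P (odd (evn x))) ∧ Z (odd x)) ∧ ¬ Y (f x)) →
      (IsHypEquiv (GG E Y) ∧ StrictlyBelow oneClass (GG E Y) ∧ StrictlyBelow (GG E Y) E) ∧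
      ¬ HypRed (GG E Z) (GG E Y) ∧ ∀ i, ¬ HypRed (F i) (GG E Y) := by
    intro Y Z hY hZ hYne hf
    refine ⟨⟨hyp_GG hE hY, one_below_GG hE hY ⟨x0, hx0⟩ hYne, GG_le hE hY, ?_⟩, ?_, fun i => ?_⟩
    · refine not_le_GG fun f hfs => ?_
      obtain ⟨x, hx, hn⟩ := hf (fun x => f (evn (evn x))) (graph_precomp hfs (h := fun x => evn (evn x))
        (GF.evn (GF.evn GF.id)))
      exact ⟨_, hx.1.1, hn⟩
    · refine not_le_GG fun f hfs => ?_
      obtain ⟨x, hx, hn⟩ := hf (fun x => f (join (evn (evn x)) (odd x)))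
        (graph_precomp hfs (h := fun x => join (evn (evn x)) (odd x))
        (GF.join (GF.evn (GF.evn GF.id)) (GF.odd GF.id)))
      refine ⟨_, (not_GG_O_iff hE _).mpr ⟨?_, ?_⟩, hn⟩
      · rw [evn_join]; exact hx.1.1
      · rw [odd_join]; exact hx.2
    · obtain ⟨π, hπ1, hπ2⟩ := hπ i
      refine not_le_GG fun f hfs => ?_
      obtain ⟨x, hx, hn⟩ := hf (fun x => f (π (odd (evn x)))) (graph_precomp hfs (h := fun x => π (odd (evn x)))
        (hπ1.comp (GF.odd (GF.evn GF.id))))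
      exact ⟨_, hπ2 _ hx.1.2, hn⟩
  obtain ⟨a1, a2, a3⟩ := key A B hA hB hAne hBA
  obtain ⟨b1, b2, b3⟩ := key B A hB hA hBne hAB
  exact ⟨GG E A, GG E B, a1, b1, b2, a2, fun i => ⟨a3 i, b3 i⟩⟩

end Pool.Agent.Results.MP_ae071c_lc.ConeAvoidingPairs
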